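import Pool.Agent.H25.BCE.Stmts

set_option autoImplicit false

namespace Pool.Agent.H7.BCE

open scoped ContDiff Topology
open Pool.Agent.H73 (P V ex ey pb solA solG mu0 Gam lin)
open Pool.Agent.H25.BCE

theorem PRO_thm (hLA2 : LA2Stmt) (hCCP : CCPStmt) : PROStmt := by
  intro K hK
  obtain ⟨R, hR⟩ := hK.isBounded.exists_norm_le
  have hR' : ∀ x ∈ K, (∀ i, |x.1 i| ≤ R) ∧ (∀ i, |x.2 i| ≤ R) := by
    intro x hx
    have h1 := hR x hx
    have h2 : ‖x.1‖ ≤ R := (norm_fst_le x).trans h1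
    have h3 : ‖x.2‖ ≤ R := (norm_snd_le x).trans h1
    exact ⟨fun i => (norm_le_pi_norm x.1 i).trans h2, fun i => (norm_le_pi_norm x.2 i).trans h3⟩
  set E : ℝ := Real.exp (|mu0| * (2 * R)) with hE
  have hfin : ((Set.Icc (-⌈2 * R⌉) ⌈2 * R⌉ : Set ℤ) ×ˢ (Set.Icc (-⌈2 * R⌉) ⌈2 * R⌉ : Set ℤ) ×ˢ
      {a : ℝ × ℝ | a ∈ Gam ∧ |a.1| ≤ R + E * R ∧ |a.2| ≤ R + E * R} ×ˢ
      {a : ℝ × ℝ | a ∈ Gam ∧ |a.1| ≤ R + E * R ∧ |a.2| ≤ R + E * R}).Finite :=
    (Set.finite_Icc _ _).prod ((Set.finite_Icc _ _).prod ((hLA2 _).prod (hLA2 _)))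
  refine (hfin.image (fun q => dk q.1 q.2.1 q.2.2.1 q.2.2.2)).subset ?_
  rintro g ⟨⟨l, j, a, b, ha, hb, rfl⟩, x, hx, hgx⟩
  obtain ⟨hx1, hx2⟩ := hR' x hx
  obtain ⟨hg1, hg2⟩ := hR' _ hgx
  have hR0 : 0 ≤ R := (abs_nonneg _).trans (hx1 0)
  have e1 : ∀ i, (dk l j a b x).1 i = (trn l j a b).1 i + Real.exp (mu0 * l * wt i) * x.1 i := by
    intro i
    rw [dk_apply, Prod.fst_add, Pi.add_apply, LL_fst]
  have e2 : ∀ i, (dk l j a b x).2 i = (trn l j a b).2 i + Real.exp (-(mu0 * l * wt i)) * x.2 i := by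
    intro i
    rw [dk_apply, Prod.snd_add, Pi.add_apply, LL_snd]
  have hl : |(l : ℝ)| ≤ 2 * R := by
    have h := hg1 2
    rw [e1] at h
    have h2 : (trn l j a b).1 2 = (l : ℝ) := rfl
    have h3 : wt 2 = 0 := rfl
    rw [h2, h3, mul_zero, Real.exp_zero, one_mul] at h
    have h4 := hx1 2
    rw [abs_le] at h h4 ⊢
    constructor <;> linarith [h.1, h.2, h4.1, h4.2]
  have hj : |(j : ℝ)| ≤ 2 * R := by
    have h := hg2 2
    rw [e2] at h
    have h2 : (trn l j a b).2 2 = (j : ℝ) * Per := rfl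
    have h3 : wt 2 = 0 := rfl
    rw [h2, h3, mul_zero, neg_zero, Real.exp_zero, one_mul] at h
    have h4 := hx2 2
    have h5 : |(j : ℝ) * Per| ≤ 2 * R := by
      rw [abs_le] at h h4 ⊢
      constructor <;> linarith [h.1, h.2, h4.1, h4.2]
    have hP : 1 ≤ |Per| := by
      rw [abs_of_pos (by linarith [hCCP.2])]
      exact hCCP.2.le
    rw [abs_mul] at h5
    nlinarith [abs_nonneg (j : ℝ)]
  have hmul : |mu0 * l| ≤ |mu0| * (2 * R) := by
    rw [abs_mul]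
    exact mul_le_mul_of_nonneg_left hl (abs_nonneg _)
  have key : ∀ (s c t : ℝ), |s| ≤ 1 → |t| ≤ R → |c + Real.exp (mu0 * l * s) * t| ≤ R →
      |c| ≤ R + E * R := by
    intro s c t hs ht hc
    have h1 : Real.exp (mu0 * l * s) ≤ E := by
      apply Real.exp_le_exp.mpr
      calc mu0 * l * s ≤ |mu0 * l * s| := le_abs_self _
        _ = |mu0 * l| * |s| := abs_mul _ _
        _ ≤ |mu0 * l| * 1 := mul_le_mul_of_nonneg_left hs (abs_nonneg _)
        _ = |mu0 * l| := mul_one _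
        _ ≤ _ := hmul
    have h2 : |Real.exp (mu0 * l * s) * t| ≤ E * R := by
      rw [abs_mul, abs_of_pos (Real.exp_pos _)]
      exact mul_le_mul h1 ht (abs_nonneg _) (Real.exp_pos _).le
    have h3 : c = (c + Real.exp (mu0 * l * s) * t) - Real.exp (mu0 * l * s) * t := by ring
    calc |c| = |(c + Real.exp (mu0 * l * s) * t) - Real.exp (mu0 * l * s) * t| := by rw [← h3]
      _ ≤ |c + Real.exp (mu0 * l * s) * t| + |Real.exp (mu0 * l * s) * t| := abs_sub _ _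
      _ ≤ _ := add_le_add hc h2
  have ha1 : |a.1| ≤ R + E * R := by
    have h := hg1 0
    rw [e1] at h
    exact key (wt 0) a.1 (x.1 0) (by norm_num [wt]) (hx1 0) h
  have ha2 : |a.2| ≤ R + E * R := by
    have h := hg1 1
    rw [e1] at h
    exact key (wt 1) a.2 (x.1 1) (by norm_num [wt]) (hx1 1) h
  have hb1 : |b.1| ≤ R + E * R := by
    have h := hg2 0
    rw [e2, ← mul_neg] at h
    exact key (-wt 0) b.1 (x.2 0) (by norm_num [wt]) (hx2 0) h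
  have hb2 : |b.2| ≤ R + E * R := by
    have h := hg2 1
    rw [e2, ← mul_neg] at h
    exact key (-wt 1) b.2 (x.2 1) (by norm_num [wt]) (hx2 1) h
  have hint : ∀ k : ℤ, |(k : ℝ)| ≤ 2 * R → k ∈ (Set.Icc (-⌈2 * R⌉) ⌈2 * R⌉ : Set ℤ) := by
    intro k hk
    rw [abs_le] at hk
    have h1 := Int.le_ceil (2 * R)
    constructor
    · have : (-(⌈2 * R⌉ : ℤ) : ℝ) ≤ k := by linarith [hk.1]
      exact_mod_cast this
    · have : (k : ℝ) ≤ (⌈2 * R⌉ : ℤ) := by linarith [hk.2]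
      exact_mod_cast this
  exact ⟨(l, j, a, b), ⟨hint l hl, hint j hj, ⟨ha, ha1, ha2⟩, ⟨hb, hb1, hb2⟩⟩, rfl⟩

end Pool.Agent.H7.BCE
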